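import Pool.Agent.X305.TP.Lin0
import Pool.Agent.X305.PE.Defs

/-!
# Tate classes over a number field and discriminants at two places. Definitions
-/

set_option autoImplicit false

open CategoryTheory AlgebraicGeometry Polynomial

universe u v w

namespace Pool.Agent.X305.TP

open Pool.Agent.H914 VarClass Obj WeilCohomology

/-- The form `tr (x ξ ^ g y)`. -/
def traceForm {K A : Type*} [Field K] [Ring A] [Algebra K A] (tr : A →ₗ[K] K) (ξ : A) (g : ℕ)
    (x y : A) : K := tr (x * (ξ ^ g * y))

variable {k : Type u} [Field k] {𝒱 : VarClass k} {ops : CycleOps 𝒱}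
  (W : WeilCohomology.{u, v} ops) (X : 𝒱.Obj) (D : X.Cycles) (n g : ℕ) {Γ : Type w} [Group Γ]
  (ρ : LinAct Γ W.K (W.H X)) (A : (X.prod X).Cycles) (Λ : Finset W.K)

/-- The linear combinations of the classes of the cycles of codimension `n`. -/
def algSpan : Submodule W.K (W.H X) := Submodule.span W.K (algClasses W X n)

/-- The operator on the cohomology of `X` induced by the correspondence `A`. -/
noncomputable def corrOf : W.H X →ₗ[W.K] W.H X := W.corr (W.cl (X.prod X) A)

/-- The Galois group `Γ` of a field of definition of `X` and `D` acts (by `ρ`, with the Tate twist)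
on the cohomology of `X` in degree `2 n`, where `dim X = 2 n + g`: the form `tr (x ξ ^ g y)` is
invariant and the class of each cycle is fixed by a subgroup of finite index. -/
structure IsGaloisAction : Prop where
  preserves : PreservesOn ρ (W.gr X (2 * n)) (traceForm (W.tr X) (W.cl X D) g)
  cycle : ∀ z, X.IsCyc n z → FixedOpen ρ (W.cl X z)

/-- The correspondence `A` of `X` with itself is defined over the base field, its action on
`H^(2 n) (X)` is self-adjoint for the form `tr (x ξ ^ g y)` and diagonalisable with the eigenvalues
in `Λ`. -/
structure IsDiagonalCorr : Prop where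
  cyc : (X.prod X).IsCyc X.dim A
  diag : IsDiagOn ρ (W.gr X (2 * n)) (traceForm (W.tr X) (W.cl X D) g) (corrOf W X A) Λ

/-- One or two places suffice for each eigenspace of the correspondence `A`. -/
def PlacesSuffice : Prop := SufficesFor ρ (W.gr X (2 * n)) (algSpan W X n) (corrOf W X A) Λ

/-- The Tate conjecture for `X` in codimension `n`: the classes in `H^(2 n) (X)` which are fixed by a
subgroup of finite index are linear combinations of classes of cycles. -/
def TateConjecture : Prop := FixedIn ρ (W.gr X (2 * n)) (algSpan W X n)

end Pool.Agent.X305.TP
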