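import Pool.Agent.X305.TP.Lin

/-!
# Two places and a self-adjoint operator. Linear algebra
-/

set_option autoImplicit false

namespace Pool.Agent.X305.TP

open Module Polynomial Pool.Agent.X305.PI

variable {K V : Type*} [Field K] [AddCommGroup V] [Module K V]

lemma mem_eigSp {T : V →ₗ[K] V} {μ : K} {x : V} : x ∈ eigSp T μ ↔ T x = μ • x := by
  rw [eigSp, LinearMap.mem_ker, LinearMap.sub_apply, LinearMap.smul_apply, LinearMap.id_apply,
    sub_eq_zero]

lemma aeval_mem_of {α : Module.End K V} {U : Submodule K V} (h : ∀ x ∈ U, α x ∈ U) (P : K[X])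
    {x : V} (hx : x ∈ U) : aeval α P x ∈ U := by
  induction P using Polynomial.induction_on' with
  | add P Q hP hQ =>
    rw [map_add, LinearMap.add_apply]
    exact U.add_mem hP hQ
  | monomial i a =>
    rw [aeval_monomial, Module.End.mul_apply, Module.algebraMap_end_apply]
    refine U.smul_mem a ?_
    induction i with
    | zero => exact hx
    | succ i ih => rw [pow_succ', Module.End.mul_apply]; exact h _ ih

variable [DecidableEq K]

omit [DecidableEq K] in
lemma prod_dvd' [DecidableEq K] {Λ : Finset K} {μ : K} (hμ : μ ∈ Λ) :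
    (∏ j ∈ Λ, (Polynomial.X - C j)) ∣ (Polynomial.X - C μ) * Lagrange.basis Λ id μ := by
  rw [← Finset.mul_prod_erase Λ _ hμ]
  apply mul_dvd_mul_left
  rw [Lagrange.basis]
  apply Finset.prod_dvd_prod_of_dvd
  intro j _
  rw [Lagrange.basisDivisor]
  exact Dvd.intro_left _ rfl

/-- the component of `x` in the eigenspace -/
noncomputable def part (α : Module.End K V) (Λ : Finset K) (μ : K) (x : V) : V :=
  aeval α (Lagrange.basis Λ id μ) x

lemma part_eig {α : Module.End K V} {Λ : Finset K} {x : V}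
    (hx : aeval α (∏ μ ∈ Λ, (X - C μ)) x = 0) {μ : K} (hμ : μ ∈ Λ) :
    α (part α Λ μ x) = μ • part α Λ μ x := by
  obtain ⟨G, hG⟩ := prod_dvd' hμ
  have h1 : aeval α ((X - C μ) * Lagrange.basis Λ id μ) x = 0 := by
    rw [hG, mul_comm, map_mul, Module.End.mul_apply, hx, map_zero]
  rw [map_mul, Module.End.mul_apply, map_sub, aeval_X, aeval_C, LinearMap.sub_apply,
    Module.algebraMap_end_apply, sub_eq_zero] at h1
  exact h1

lemma sum_part {α : Module.End K V} {Λ : Finset K} (hne : Λ.Nonempty) (x : V) :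
    ∑ μ ∈ Λ, part α Λ μ x = x := by
  have h1 := Lagrange.sum_basis (s := Λ) (v := id) (Function.injective_id.injOn) hne
  have h2 := congrArg (fun P : K[X] => aeval α P x) h1
  simp only [map_sum, LinearMap.sum_apply, map_one, Module.End.one_apply] at h2
  exact h2

lemma mem_of_parts {α : Module.End K V} {Λ : Finset K} {x : V}
    (hx : aeval α (∏ μ ∈ Λ, (X - C μ)) x = 0) {N : Submodule K V}
    (h : ∀ μ ∈ Λ, part α Λ μ x ∈ N) : x ∈ N := by
  rcases Λ.eq_empty_or_nonempty with rfl | hne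
  · rw [Finset.prod_empty, map_one, Module.End.one_apply] at hx
    rw [hx]
    exact N.zero_mem
  · rw [← sum_part (α := α) hne x]
    exact N.sum_mem h

omit [DecidableEq K] in
/-- **The Tate classes are algebraic**, linear algebra. -/
theorem le_of_suffices [CharZero K] [FiniteDimensional K V] {Γ : Type*} [Group Γ] {ρ : LinAct Γ K V}
    {α : Module.End K V} {U N T : Submodule K V} {B : LinearMap.BilinForm K V}
    (hB : ∀ x ∈ U, ∀ y ∈ U, B x y = B y x) (hnd : ∀ x ∈ U, (∀ y ∈ U, B x y = 0) → x = 0)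
    (hF : ∀ s, ∀ x ∈ U, ∀ y ∈ U, B (ρ.op s x) (ρ.op s y) = B x y) (hTU : T ≤ U) (hNT : N ≤ T)
    (hT : ∀ s, ∀ x ∈ T, ∃ m, 0 < m ∧ (ρ.op s ^ m) x = x) (hαU : ∀ x ∈ U, α x ∈ U)
    (hαT : ∀ x ∈ T, α x ∈ T)
    (hadj : ∀ x ∈ U, ∀ y ∈ U, B (α x) y = B x (α y)) {Λ : Finset K}
    (hΛ : ∀ x ∈ U, aeval α (∏ μ ∈ Λ, (X - C μ)) x = 0)
    (h : SufficesFor ρ U N α Λ) : T ≤ N := by
  classical
  intro x hx
  refine mem_of_parts (hΛ x (hTU hx)) fun μ hμ => ?_
  have hnd' : ∀ x ∈ U ⊓ eigSp α μ, (∀ y ∈ U ⊓ eigSp α μ, B x y = 0) → x = 0 := by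
    intro x hx h0
    refine hnd x hx.1 fun y hy => ?_
    have h1 : y ∈ LinearMap.ker (B x) := by
      refine mem_of_parts (hΛ y hy) fun ν hν => ?_
      rw [LinearMap.mem_ker]
      have hyU : part α Λ ν y ∈ U := aeval_mem_of hαU _ hy
      have hye : α (part α Λ ν y) = ν • part α Λ ν y := part_eig (hΛ y hy) hν
      by_cases hνμ : ν = μ
      · subst hνμ
        exact h0 _ ⟨hyU, mem_eigSp.2 hye⟩
      · have h2 := hadj x hx.1 _ hyU
        rw [mem_eigSp.1 hx.2, hye, map_smul, LinearMap.smul_apply, map_smul, smul_eq_mul,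
          smul_eq_mul] at h2
        have h3 : (μ - ν) * B x (part α Λ ν y) = 0 := by
          rw [sub_mul, h2, sub_self]
        exact (mul_eq_zero.1 h3).resolve_left (sub_ne_zero.2 (Ne.symm hνμ))
    exact LinearMap.mem_ker.1 h1
  have h1 := eq_of_suffices (ρ := ρ) (U := U ⊓ eigSp α μ) (N := N ⊓ eigSp α μ)
    (T := T ⊓ eigSp α μ) (B := B) (fun x hx y hy => hB x hx.1 y hy.1) hnd'
    (fun s x hx y hy => hF s x hx.1 y hy.1) (inf_le_inf_right _ hTU) (inf_le_inf_right _ hNT)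
    (fun s x hx => hT s x hx.1) (h μ hμ)
  have h2 : part α Λ μ x ∈ T ⊓ eigSp α μ :=
    ⟨aeval_mem_of hαT _ hx, mem_eigSp.2 (part_eig (hΛ x (hTU hx)) hμ)⟩
  rw [← h1] at h2
  exact h2.1

end Pool.Agent.X305.TP
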