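import Pool.Agent.X305.TP.Defs
import Pool.Agent.X305.TP.Eig
import Pool.Agent.X305.PE.Num

/-!
# The Tate conjecture from discriminants at two places
-/

set_option autoImplicit false

open CategoryTheory AlgebraicGeometry Polynomial

universe u v w

namespace Pool.Agent.X305.TP

open Pool.Agent.H914 VarClass Obj WeilCohomology Pool.Agent.TH720.LB Pool.Agent.X305.PE

section Lin

variable {K V : Type*} [Field K] [AddCommGroup V] [Module K V] {Γ : Type*} [Group Γ]
  {ρ : LinAct Γ K V}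

lemma FixedOpen.zero : FixedOpen ρ (0 : V) := ⟨⊤, inferInstance, fun _ _ => map_zero _⟩

lemma FixedOpen.add {x y : V} (hx : FixedOpen ρ x) (hy : FixedOpen ρ y) : FixedOpen ρ (x + y) := by
  obtain ⟨Δ, h1, h2⟩ := hx
  obtain ⟨Δ', h1', h2'⟩ := hy
  refine ⟨Δ ⊓ Δ', inferInstance, fun s hs => ?_⟩
  rw [map_add, h2 s hs.1, h2' s hs.2]

lemma FixedOpen.smul {x : V} (a : K) (hx : FixedOpen ρ x) : FixedOpen ρ (a • x) := by
  obtain ⟨Δ, h1, h2⟩ := hx
  refine ⟨Δ, h1, fun s hs => ?_⟩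
  rw [map_smul, h2 s hs]

/-- the Tate classes in the subspace `U` -/
def tateIn (ρ : LinAct Γ K V) (U : Submodule K V) : Submodule K V where
  carrier := {x | x ∈ U ∧ FixedOpen ρ x}
  add_mem' := fun h1 h2 => ⟨U.add_mem h1.1 h2.1, h1.2.add h2.2⟩
  zero_mem' := ⟨U.zero_mem, FixedOpen.zero⟩
  smul_mem' := fun a _ h => ⟨U.smul_mem a h.1, h.2.smul a⟩

lemma FixedOpen.pow {x : V} (hx : FixedOpen ρ x) (s : Γ) : ∃ m, 0 < m ∧ (ρ.op s ^ m) x = x := by
  obtain ⟨Δ, h1, h2⟩ := hx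
  obtain ⟨m, hm, -, hmem⟩ := Δ.exists_pow_mem_of_index_ne_zero h1.index_ne_zero s
  refine ⟨m, hm, ?_⟩
  have h3 : (ρ.op s ^ m) = ρ.op (s ^ m) := (map_pow (show Γ →* Module.End K V from ρ) s m).symm
  rw [h3]
  exact h2 _ hmem

end Lin

variable {k : Type u} [Field k] {𝒱 : VarClass k} {ops : CycleOps 𝒱}
  {W : WeilCohomology.{u, v} ops} {X : 𝒱.Obj} {D : X.Cycles} {n g : ℕ} {Γ : Type w} [Group Γ]
  {ρ : LinAct Γ W.K (W.H X)}

/-- nondegeneracy -/
lemma nondeg_lef (hd : 2 * n + g = X.dim) (hHL : HardLefschetz W X D)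
    {x : W.H X} (hx : x ∈ W.gr X (2 * n)) (h : ∀ y ∈ W.gr X (2 * n), hfrm W X D n g x y = 0) :
    x = 0 := by
  apply W.nondeg
  intro b
  refine gr_induction (W.isInternal X) (p := fun b => W.tr X (x * b) = 0) ?_ ?_ b
  · intro i a ha
    by_cases hi : 2 * n + i = 2 * X.dim
    · obtain ⟨y, hy, hyb⟩ := (hHL (2 * n) (by omega)).2 a (by
        rw [show 2 * X.dim - 2 * n = i by omega]; exact ha)
      have h1 := h y hy
      rw [hfrm_apply] at h1
      have h2 : W.tr X (x * (W.cl X D ^ g * y)) = 0 :=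
        (mul_eq_zero.1 h1).resolve_left (pow_ne_zero _ (by norm_num))
      rw [LinearMap.pow_mulLeft, LinearMap.mulLeft_apply, show X.dim - 2 * n = g by omega] at hyb
      rw [← hyb]
      exact h2
    · exact W.tr_eq_zero (W.mul_mem hx ha) hi
  · intro a b ha hb
    rw [mul_add, map_add, ha, hb, add_zero]

lemma corr_gr {A : (X.prod X).Cycles} (hA : (X.prod X).IsCyc X.dim A) {x : W.H X}
    (hx : x ∈ W.gr X (2 * n)) : W.corr (W.cl _ A) x ∈ W.gr X (2 * n) := by
  have h1 := corr_isHom W (W.cl_mem hA) (2 * n : ℕ) x (by rw [grZ_natCast]; exact hx)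
  rw [sub_self, mul_zero, add_zero, grZ_natCast] at h1
  exact h1

/-- **The Tate conjecture in codimension `n` from one or two places for each eigenspace.** -/
theorem tate_of_suffices (hd : 2 * n + g = X.dim) (hHL : HardLefschetz W X D)
    (hρ : IsGaloisAction W X D n g ρ) {A : (X.prod X).Cycles} {Λ : Finset W.K}
    (hA : IsDiagonalCorr W X D n g ρ A Λ)
    (h : PlacesSuffice W X n ρ A Λ) : TateConjecture W X n ρ := by
  have hlef : ∀ x y : W.H X, hfrm W X D n g x y =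
      (-1) ^ n * traceForm (W.tr X) (W.cl X D) g x y :=
    fun x y => rfl
  have hN : algSpan W X n ≤ tateIn ρ (W.gr X (2 * n)) := by
    rw [algSpan, Submodule.span_le]
    rintro _ ⟨z, hz, rfl⟩
    exact ⟨W.cl_mem hz, hρ.cycle z hz⟩
  have h1 := le_of_suffices (ρ := ρ) (α := corrOf W X A) (U := W.gr X (2 * n))
    (N := algSpan W X n) (T := tateIn ρ (W.gr X (2 * n))) (B := hfrm W X D n g)
    (fun x hx y hy => hfrm_symm hx hy) (fun x hx h0 => nondeg_lef hd hHL hx h0)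
    (fun s x hx y hy => by rw [hlef, hlef, (hρ.preserves s x hx).2 y hy]) (fun x hx => hx.1) hN
    (fun s x hx => hx.2.pow s) (fun x hx => corr_gr hA.cyc hx) (fun x hx => by
      obtain ⟨Δ, h2, h3⟩ := hx.2
      refine ⟨corr_gr hA.cyc hx.1, Δ, h2, fun s hs => ?_⟩
      rw [hA.diag.comm s x hx.1, h3 s hs])
    (fun x hx y hy => by rw [hlef, hlef, hA.diag.adj x hx y hy]) hA.diag.diag h
  intro x hx hx2
  exact h1 ⟨hx, hx2⟩

end Pool.Agent.X305.TP
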