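import Mathlib

/-!
# Linear group actions: definitions
-/

set_option autoImplicit false

namespace Pool.Agent.X305.TP

open Module Polynomial

variable {K V : Type*} [Field K] [AddCommGroup V] [Module K V]

/-- The eigenspace `T x = μ x`. -/
def eigSp (T : V →ₗ[K] V) (μ : K) : Submodule K V := LinearMap.ker (T - μ • LinearMap.id)

/-- The operator `F` maps the subspace `U` to itself, and its characteristic polynomial on `U` is
`(X - 1) ^ r Q`, where no root of `Q` is a root of unity. -/
structure SplitsAt [Module.Finite K V] (F : Module.End K V) (U : Submodule K V) (r : ℕ)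
    (Q : K[X]) : Prop where
  charpoly : ∃ G : Module.End K U, (∀ x, (G x : V) = F x) ∧ G.charpoly = (X - 1) ^ r * Q
  coprime : ∀ m : ℕ, 0 < m → IsCoprime Q (X ^ m - 1)

/-- A linear action of the group `Γ` on the vector space `V`. -/
def LinAct (Γ K V : Type*) [Group Γ] [Field K] [AddCommGroup V] [Module K V] : Type _ :=
  Γ →* Module.End K V

variable {Γ : Type*} [Group Γ]

/-- The operator by which `s` acts. -/
def LinAct.op (ρ : LinAct Γ K V) (s : Γ) : V →ₗ[K] V := (show Γ →* Module.End K V from ρ) s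

/-- Some subgroup of finite index fixes `x`. -/
def FixedOpen (ρ : LinAct Γ K V) (x : V) : Prop :=
  ∃ Δ : Subgroup Γ, Δ.FiniteIndex ∧ ∀ s ∈ Δ, ρ.op s x = x

/-- All elements of `U` which are fixed by some subgroup of finite index lie in `N`. -/
def FixedIn (ρ : LinAct Γ K V) (U N : Submodule K V) : Prop := ∀ x ∈ U, FixedOpen ρ x → x ∈ N

/-- The group acts on the subspace `U` and preserves the form `B` on it. -/
def PreservesOn (ρ : LinAct Γ K V) (U : Submodule K V) (B : V → V → K) : Prop :=
  ∀ s, ∀ x ∈ U, ρ.op s x ∈ U ∧ ∀ y ∈ U, B (ρ.op s x) (ρ.op s y) = B x y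

/-- The operator `T` commutes on `U` with the group, is self-adjoint for the form `B` on `U`, and is
diagonalisable on `U` with the eigenvalues in `Λ`. -/
structure IsDiagOn (ρ : LinAct Γ K V) (U : Submodule K V) (B : V → V → K) (T : V →ₗ[K] V)
    (Λ : Finset K) : Prop where
  comm : ∀ s, ∀ x ∈ U, ρ.op s (T x) = T (ρ.op s x)
  adj : ∀ x ∈ U, ∀ y ∈ U, B (T x) y = B x (T y)
  diag : ∀ x ∈ U, aeval T (∏ μ ∈ Λ, (X - C μ)) x = 0

variable [Module.Finite K V]

/-- One or two group elements suffice for the subspace `U` and its subspace `N`: some `s` has at most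
`dim N` eigenvalues on `U` which are roots of unity (all equal to `1`), or there are `s`, `s'` for
which this number is at most `dim N + 1` and the numbers `Q (1) Q (-1)`, `Q' (1) Q' (-1)` differ by a
factor which is not a square. -/
def Suffices (ρ : LinAct Γ K V) (U N : Submodule K V) : Prop :=
  (∃ s r Q, SplitsAt (ρ.op s) U r Q ∧ r ≤ finrank K N) ∨
  ∃ s s' r Q Q', SplitsAt (ρ.op s) U r Q ∧ SplitsAt (ρ.op s') U r Q' ∧ r ≤ finrank K N + 1 ∧
    ¬ IsSquare (Q.eval 1 * Q.eval (-1) * (Q'.eval 1 * Q'.eval (-1)))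

/-- One or two group elements suffice for each of the eigenspaces of `T` with eigenvalue in `Λ`. -/
def SufficesFor (ρ : LinAct Γ K V) (U N : Submodule K V) (T : V →ₗ[K] V) (Λ : Finset K) : Prop :=
  ∀ μ ∈ Λ, Suffices ρ (U ⊓ eigSp T μ) (N ⊓ eigSp T μ)

end Pool.Agent.X305.TP
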