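import Pool.Agent.X305.PI.Split
import Pool.Agent.X305.TP.Lin0

/-!
# Classes fixed by a subgroup of finite index and discriminants at two places. Linear algebra
-/

set_option autoImplicit false

namespace Pool.Agent.X305.TP

open Module Polynomial Pool.Agent.X305.PI

variable {K V : Type*} [Field K] [CharZero K] [AddCommGroup V] [Module K V]
  [FiniteDimensional K V]

lemma eval_ne {Q : K[X]} (hQ : ∀ m : ℕ, 0 < m → IsCoprime Q (X ^ m - 1)) :
    Q.eval 1 ≠ 0 ∧ Q.eval (-1) ≠ 0 := by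
  obtain ⟨u, v, huv⟩ := hQ 2 (by norm_num)
  have h1 := congrArg (Polynomial.eval 1) huv
  have h2 := congrArg (Polynomial.eval (-1)) huv
  simp only [eval_add, eval_mul, eval_sub, eval_pow, eval_X, eval_one] at h1 h2
  constructor
  · intro h
    rw [h] at h1
    norm_num at h1
  · intro h
    rw [h] at h2
    norm_num at h2

/-- a vector fixed by a power is fixed -/
lemma fixed_of_pow {G : Module.End K V} {r : ℕ} {Q : K[X]} (hG : G.charpoly = (X - 1) ^ r * Q)
    {m : ℕ} (hm : 0 < m) (hQ : IsCoprime Q (X ^ m - 1)) {x : V} (hx : (G ^ m) x = x) :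
    G x = x := by
  have hCH : aeval G ((X - 1) ^ r * Q) = 0 := by
    rw [← hG]
    exact LinearMap.aeval_self_charpoly G
  have hm0 : aeval G (X ^ m - 1 : K[X]) x = 0 := by
    rw [map_sub, map_pow, aeval_X, map_one, LinearMap.sub_apply, hx, Module.End.one_apply, sub_self]
  -- `(X - 1) ^ r` kills `x`
  have h1 : aeval G ((X - 1 : K[X]) ^ r) x = 0 := by
    obtain ⟨u, v, huv⟩ := hQ
    have h2 : (X - 1 : K[X]) ^ r = u * ((X - 1) ^ r * Q) + (v * (X - 1) ^ r) * (X ^ m - 1) := by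
      linear_combination (-(X - 1 : K[X]) ^ r) * huv
    rw [h2, map_add, LinearMap.add_apply, map_mul, hCH, mul_zero, LinearMap.zero_apply, map_mul,
      Module.End.mul_apply, hm0, map_zero, add_zero]
  -- `X ^ m - 1 = (X - 1) S`
  set S : K[X] := ∑ i ∈ Finset.range m, X ^ i with hS
  have hmul : S * (X - 1) = X ^ m - 1 := geom_sum_mul X m
  have hS1 : S.eval 1 ≠ 0 := by
    rw [hS, eval_finsetSum]
    simp only [eval_pow, eval_X, one_pow, Finset.sum_const, Finset.card_range, nsmul_eq_mul,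
      mul_one]
    exact_mod_cast hm.ne'
  have hcop : IsCoprime ((X - 1 : K[X]) ^ r) S := by
    apply IsCoprime.pow_left
    have h3 : IsCoprime (X - C (1 : K)) S := by
      rw [(irreducible_X_sub_C (1 : K)).coprime_iff_not_dvd]
      intro h4
      exact hS1 (dvd_iff_isRoot.1 h4)
    rwa [C_1] at h3
  obtain ⟨u, v, huv⟩ := hcop
  have h4 : (X - 1 : K[X]) = (u * (X - 1)) * (X - 1) ^ r + v * (X ^ m - 1) := by
    linear_combination (-(X - 1 : K[X])) * huv + v * hmul
  have h5 : aeval G (X - 1 : K[X]) x = 0 := by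
    rw [h4, map_add, LinearMap.add_apply, map_mul, Module.End.mul_apply, h1, map_zero, map_mul,
      Module.End.mul_apply, hm0, map_zero, add_zero]
  rw [map_sub, aeval_X, map_one, LinearMap.sub_apply, Module.End.one_apply, sub_eq_zero] at h5
  exact h5

/-- the dimension of a space of fixed vectors -/
lemma finrank_le_of_fixed {G : Module.End K V} {r : ℕ} {Q : K[X]}
    (hG : G.charpoly = (X - 1) ^ r * Q) (hQ : Q.eval 1 ≠ 0) {T : Submodule K V}
    (hT : ∀ x ∈ T, G x = x) : finrank K T ≤ r := by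
  have hQ0 : Q ≠ 0 := by
    rintro rfl
    rw [eval_zero] at hQ
    exact hQ rfl
  have h0 : T ≤ G.maxGenEigenspace 1 := by
    intro x hx
    rw [Module.End.mem_maxGenEigenspace]
    refine ⟨1, ?_⟩
    rw [pow_one, LinearMap.sub_apply, LinearMap.smul_apply, Module.End.one_apply, one_smul,
      hT x hx, sub_self]
  refine (Submodule.finrank_mono h0).trans ?_
  rw [LinearMap.finrank_maxGenEigenspace_eq, hG]
  have h3 : ((X - 1 : K[X]) ^ r * Q) ≠ 0 := mul_ne_zero (pow_ne_zero _ (by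
    have := X_sub_C_ne_zero (1 : K)
    rwa [C_1] at this)) hQ0
  rw [rootMultiplicity_mul h3]
  have h4 : rootMultiplicity 1 Q = 0 := rootMultiplicity_eq_zero hQ
  have h5 : rootMultiplicity 1 ((X - 1 : K[X]) ^ r) = r := by
    have := rootMultiplicity_X_sub_C_pow (1 : K) r
    rwa [C_1] at this
  rw [h4, h5, add_zero]

/-- **Two isometries.** -/
theorem two_isometries {B : LinearMap.BilinForm K V} (hB : ∀ x y, B x y = B y x)
    (hnd : ∀ x, (∀ y, B x y = 0) → x = 0) {F F' : Module.End K V}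
    (hF : ∀ x y, B (F x) (F y) = B x y) (hF' : ∀ x y, B (F' x) (F' y) = B x y) {r : ℕ}
    {Q Q' : K[X]} (hc : F.charpoly = (X - 1) ^ r * Q) (hc' : F'.charpoly = (X - 1) ^ r * Q')
    (hQ : Q.eval 1 ≠ 0 ∧ Q.eval (-1) ≠ 0) (hQ' : Q'.eval 1 ≠ 0 ∧ Q'.eval (-1) ≠ 0)
    (hsq : ¬ IsSquare (Q.eval 1 * Q.eval (-1) * (Q'.eval 1 * Q'.eval (-1))))
    {T : Submodule K V} (hT : ∀ x ∈ T, F x = x) (hT' : ∀ x ∈ T, F' x = x) : finrank K T < r := by
  refine lt_of_le_of_ne (finrank_le_of_fixed hc hQ.1 hT) fun hr => ?_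
  subst hr
  set b := Module.finBasis K T with hb
  have hz : LinearIndependent K (fun i => (b i : V)) :=
    b.linearIndependent.map' T.subtype (Submodule.ker_subtype T)
  obtain ⟨h1, c, h2⟩ := disc_split hB hnd hF hz (fun i => hT _ (b i).2) hc hQ.1 hQ.2
    (Module.finBasis K V)
  obtain ⟨-, c', h3⟩ := disc_split hB hnd hF' hz (fun i => hT' _ (b i).2) hc' hQ'.1 hQ'.2
    (Module.finBasis K V)
  set d := (LinearMap.BilinForm.toMatrix (Module.finBasis K V) B).det with hd
  set e := (gram B fun i => (b i : V)).det with he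
  have hd0 : d ≠ 0 := by
    rw [hd, ← LinearMap.BilinForm.nondegenerate_iff_det_ne_zero]
    exact ⟨hnd, fun y hy => hnd y (fun x => by rw [hB]; exact hy x)⟩
  apply hsq
  refine ⟨c * c' / (d * e), ?_⟩
  have h4 : d * e ≠ 0 := mul_ne_zero hd0 h1
  field_simp
  linear_combination (d * e * (eval 1 Q' * eval (-1) Q')) * h2 + c ^ 2 * h3

/-- **One eigenspace.** `T` is a space of vectors each of which is fixed by a positive power of every
`F s`, and `N ≤ T`. -/
theorem eq_of_suffices {Γ : Type*} [Group Γ] {ρ : LinAct Γ K V} {U N T : Submodule K V}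
    {B : LinearMap.BilinForm K V} (hB : ∀ x ∈ U, ∀ y ∈ U, B x y = B y x)
    (hnd : ∀ x ∈ U, (∀ y ∈ U, B x y = 0) → x = 0)
    (hF : ∀ s, ∀ x ∈ U, ∀ y ∈ U, B (ρ.op s x) (ρ.op s y) = B x y) (hTU : T ≤ U) (hNT : N ≤ T)
    (hT : ∀ s, ∀ x ∈ T, ∃ m, 0 < m ∧ (ρ.op s ^ m) x = x) (h : Suffices ρ U N) : N = T := by
  -- restriction to `U`
  have key : ∀ s r Q, SplitsAt (ρ.op s) U r Q → ∃ G : Module.End K U, (∀ x, (G x : V) = ρ.op s x) ∧
      G.charpoly = (X - 1) ^ r * Q ∧ (Q.eval 1 ≠ 0 ∧ Q.eval (-1) ≠ 0) ∧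
      ∀ x ∈ T.comap U.subtype, G x = x := by
    intro s r Q hs
    obtain ⟨G, hG, hc⟩ := hs.charpoly
    refine ⟨G, hG, hc, eval_ne hs.coprime, fun x hx => ?_⟩
    obtain ⟨m, hm, hx2⟩ := hT s (x : V) hx
    refine fixed_of_pow hc hm (hs.coprime m hm) ?_
    apply Subtype.ext
    have h1 : ∀ i : ℕ, (((G ^ i) x : U) : V) = (ρ.op s ^ i) (x : V) := by
      intro i
      induction i with
      | zero => rfl
      | succ i ih => rw [pow_succ', Module.End.mul_apply, hG, ih, pow_succ', Module.End.mul_apply]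
    rw [h1, hx2]
  have hdim : finrank K (T.comap U.subtype) = finrank K T :=
    (Submodule.comapSubtypeEquivOfLe hTU).finrank_eq
  rcases h with ⟨s, r, Q, hs, hr⟩ | ⟨s, s', r, Q, Q', hs, hs', hr, hsq⟩
  · obtain ⟨G, hG, hc, hQ, hfix⟩ := key s r Q hs
    have h1 := finrank_le_of_fixed hc hQ.1 hfix
    rw [hdim] at h1
    exact Submodule.eq_of_le_of_finrank_le hNT (h1.trans hr)
  · obtain ⟨G, hG, hc, hQ, hfix⟩ := key s r Q hs
    obtain ⟨G', hG', hc', hQ', hfix'⟩ := key s' r Q' hs'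
    have h1 := two_isometries (B := B.restrict U) (fun x y => hB x x.2 y y.2)
      (fun x hx => Subtype.ext (hnd x x.2 fun y hy => hx ⟨y, hy⟩))
      (fun x y => by
        show B (G x) (G y) = B x y
        rw [hG, hG, hF s x x.2 y y.2]) (fun x y => by
        show B (G' x) (G' y) = B x y
        rw [hG', hG', hF s' x x.2 y y.2]) hc hc' hQ hQ' hsq hfix hfix'
    rw [hdim] at h1
    exact Submodule.eq_of_le_of_finrank_le hNT (by omega)

end Pool.Agent.X305.TP
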